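import Mathlib

set_option autoImplicit false
open MeasureTheory Set Filter

namespace Pool.Agent.W56.WM

/-- Tonelli: the Laplace transform of `f` through its primitive. -/
theorem laplace_eq (f : ℝ → ℝ) (hf0 : ∀ v, 0 ≤ f v) (hfm : Measurable f)
    (hloc : ∀ V : ℝ, IntegrableOn f (Set.Ioc 0 V)) (V : ℝ) (hV : 0 < V) :
    ∫⁻ v in Set.Ioi 0, ENNReal.ofReal (f v * Real.exp (-(v / V))) =
      ∫⁻ u in Set.Ioi 0, ENNReal.ofReal (Real.exp (-u) * ∫ v in Set.Ioc 0 (V * u), f v) := by
  classical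
  let T : Set (ℝ × ℝ) := {p | 0 < p.1 ∧ 0 < p.2 ∧ p.2 < V * p.1}
  have hT : MeasurableSet T := by
    have h1 : MeasurableSet {p : ℝ × ℝ | 0 < p.1} := measurableSet_lt measurable_const measurable_fst
    have h2 : MeasurableSet {p : ℝ × ℝ | 0 < p.2} := measurableSet_lt measurable_const measurable_snd
    have h3 : MeasurableSet {p : ℝ × ℝ | p.2 < V * p.1} :=
      measurableSet_lt measurable_snd (measurable_const.mul measurable_fst)
    exact h1.inter (h2.inter h3)
  let F : ℝ × ℝ → ENNReal := T.indicator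
    (fun p => ENNReal.ofReal (Real.exp (-p.1)) * ENNReal.ofReal (f p.2))
  have hF : Measurable F := by
    apply Measurable.indicator _ hT
    exact ((Real.measurable_exp.comp measurable_fst.neg).ennreal_ofReal).mul
      ((hfm.comp measurable_snd).ennreal_ofReal)
  have hswap : ∫⁻ v, ∫⁻ u, F (u, v) = ∫⁻ u, ∫⁻ v, F (u, v) := by
    have := lintegral_lintegral_swap (μ := (volume : Measure ℝ)) (ν := (volume : Measure ℝ))
      (f := fun v u => F (u, v)) (by
        have : Measurable (Function.uncurry fun v u => F (u, v)) :=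
          hF.comp (measurable_snd.prodMk measurable_fst)
        exact this.aemeasurable)
    exact this
  have hL : ∀ v : ℝ, ∫⁻ u, F (u, v) =
      (Set.Ioi (0:ℝ)).indicator (fun v => ENNReal.ofReal (f v * Real.exp (-(v / V)))) v := by
    intro v
    by_cases hv : 0 < v
    · rw [Set.indicator_of_mem (show v ∈ Set.Ioi (0:ℝ) from hv)]
      have h1 : ∀ u : ℝ, F (u, v) = (Set.Ioi (v / V)).indicator
          (fun u => ENNReal.ofReal (Real.exp (-u)) * ENNReal.ofReal (f v)) u := by
        intro u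
        by_cases hu : v / V < u
        · have hu' : v < V * u := by rw [div_lt_iff₀ hV] at hu; linarith
          have hu0 : 0 < u := lt_trans (by positivity) hu
          rw [Set.indicator_of_mem (show u ∈ Set.Ioi (v / V) from hu)]
          exact Set.indicator_of_mem (show (u, v) ∈ T from ⟨hu0, hv, hu'⟩) _
        · rw [Set.indicator_of_notMem (show u ∉ Set.Ioi (v / V) from hu)]
          apply Set.indicator_of_notMem
          rintro ⟨_, _, h3⟩
          apply hu
          rw [div_lt_iff₀ hV]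
          have h3' : v < V * u := h3
          linarith
      simp_rw [h1]
      have hm : Measurable fun u : ℝ => ENNReal.ofReal (Real.exp (-u)) :=
        (Real.measurable_exp.comp measurable_neg).ennreal_ofReal
      rw [lintegral_indicator measurableSet_Ioi, lintegral_mul_const _ hm]
      have h2 : ∫⁻ u in Set.Ioi (v / V), ENNReal.ofReal (Real.exp (-u)) =
          ENNReal.ofReal (Real.exp (-(v / V))) := by
        rw [← integral_exp_neg_Ioi, ofReal_integral_eq_lintegral_ofReal]
        · have h7 := exp_neg_integrableOn_Ioi (v / V) (b := 1) one_pos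
          simp only [neg_mul, one_mul] at h7
          exact h7
        · exact Filter.Eventually.of_forall fun u => (Real.exp_pos _).le
      rw [h2, ← ENNReal.ofReal_mul (Real.exp_pos _).le, mul_comm]
    · rw [Set.indicator_of_notMem (show v ∉ Set.Ioi (0:ℝ) from hv)]
      have h1 : ∀ u : ℝ, F (u, v) = 0 := by
        intro u
        apply Set.indicator_of_notMem
        rintro ⟨_, h2, _⟩
        exact hv h2
      simp_rw [h1]
      simp
  have hR : ∀ u : ℝ, ∫⁻ v, F (u, v) =
      (Set.Ioi (0:ℝ)).indicator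
        (fun u => ENNReal.ofReal (Real.exp (-u) * ∫ v in Set.Ioc 0 (V * u), f v)) u := by
    intro u
    by_cases hu : 0 < u
    · rw [Set.indicator_of_mem (show u ∈ Set.Ioi (0:ℝ) from hu)]
      have h1 : ∀ v : ℝ, F (u, v) = (Set.Ioo 0 (V * u)).indicator
          (fun v => ENNReal.ofReal (Real.exp (-u)) * ENNReal.ofReal (f v)) v := by
        intro v
        by_cases hv : v ∈ Set.Ioo 0 (V * u)
        · rw [Set.indicator_of_mem hv]
          exact Set.indicator_of_mem (show (u, v) ∈ T from ⟨hu, hv.1, hv.2⟩) _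
        · rw [Set.indicator_of_notMem hv]
          apply Set.indicator_of_notMem
          rintro ⟨_, h2, h3⟩
          exact hv ⟨h2, h3⟩
      simp_rw [h1]
      rw [lintegral_indicator measurableSet_Ioo, lintegral_const_mul _ hfm.ennreal_ofReal,
        ENNReal.ofReal_mul (Real.exp_pos _).le, integral_Ioc_eq_integral_Ioo,
        ofReal_integral_eq_lintegral_ofReal]
      · exact (hloc (V * u)).mono_set Set.Ioo_subset_Ioc_self
      · exact Filter.Eventually.of_forall fun v => hf0 v
    · rw [Set.indicator_of_notMem (show u ∉ Set.Ioi (0:ℝ) from hu)]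
      have h1 : ∀ v : ℝ, F (u, v) = 0 := by
        intro v
        apply Set.indicator_of_notMem
        rintro ⟨h2, _, _⟩
        exact hu h2
      simp_rw [h1]
      simp
  simp_rw [hL, hR] at hswap
  rw [lintegral_indicator measurableSet_Ioi, lintegral_indicator measurableSet_Ioi] at hswap
  exact hswap

theorem int_mul_exp : IntegrableOn (fun u : ℝ => Real.exp (-u) * u) (Set.Ioi 0) ∧
    ∫ u in Set.Ioi (0:ℝ), Real.exp (-u) * u = 1 := by
  have h1 := Real.GammaIntegral_convergent (s := 2) (by norm_num)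
  have h2 := Real.Gamma_eq_integral (s := 2) (by norm_num)
  have h3 : ∀ x : ℝ, Real.exp (-x) * x ^ ((2:ℝ) - 1) = Real.exp (-x) * x := by
    intro x
    rw [show ((2:ℝ) - 1) = 1 by norm_num, Real.rpow_one]
  simp_rw [h3] at h1 h2
  refine ⟨h1, ?_⟩
  rw [← h2]
  exact Real.Gamma_two

theorem int_exp : IntegrableOn (fun u : ℝ => Real.exp (-u)) (Set.Ioi 0) ∧
    ∫ u in Set.Ioi (0:ℝ), Real.exp (-u) = 1 := by
  refine ⟨?_, ?_⟩
  · have := exp_neg_integrableOn_Ioi 0 (b := 1) one_pos
    simpa using this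
  · rw [integral_exp_neg_Ioi]; simp

theorem int_bump (a b : ℝ) (ha : 0 ≤ a) (hab : a ≤ b) :
    ∫ u in Set.Ioi (0:ℝ), (Set.Ioc a b).indicator (fun u => Real.exp (-u)) u =
      Real.exp (-a) - Real.exp (-b) := by
  rw [setIntegral_indicator measurableSet_Ioc]
  have h1 : Set.Ioi (0:ℝ) ∩ Set.Ioc a b = Set.Ioc a b := by
    apply Set.inter_eq_right.mpr
    intro x hx
    exact lt_of_le_of_lt ha hx.1
  rw [h1, ← intervalIntegral.integral_of_le hab]
  have h2 : ∀ x ∈ Set.uIcc a b, HasDerivAt (fun x : ℝ => -Real.exp (-x)) (Real.exp (-x)) x := by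
    intro x _
    have h7 : HasDerivAt (fun x : ℝ => Real.exp (-x)) (Real.exp (-x) * (-1)) x :=
      (hasDerivAt_neg x).exp
    have h8 : HasDerivAt (fun x : ℝ => -Real.exp (-x)) (-(Real.exp (-x) * (-1))) x := h7.neg
    rw [show -(Real.exp (-x) * (-1)) = Real.exp (-x) by ring] at h8
    exact h8
  rw [intervalIntegral.integral_eq_sub_of_hasDerivAt h2
    (Continuous.intervalIntegrable (by fun_prop) _ _)]
  ring

theorem upper_step (f : ℝ → ℝ) (hf0 : ∀ v, 0 ≤ f v) (hfm : Measurable f)
    (hloc : ∀ V : ℝ, IntegrableOn f (Set.Ioc 0 V)) (S : ℝ) (hS : 0 ≤ S)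
    (a w0 ε η κ V : ℝ) (ha : 0 ≤ a) (haS : a ≤ S) (hw0 : 0 ≤ w0)
    (hη : 0 < η) (hκ : κ = η / (2 * (S + 1))) (hV : 0 < V)
    (hlow : ∀ w, 0 ≤ w → a * (w - w0) ≤ ∫ v in Set.Ioc 0 w, f v)
    (hup : ∫⁻ v in Set.Ioi 0, ENNReal.ofReal (f v * Real.exp (-(v / V))) ≤
      ENNReal.ofReal ((S + ε) * V))
    (hε : 0 < ε)
    (hbig : (S + η) * V ≤ ∫ v in Set.Ioc 0 V, f v) :
    a * (V - w0) + (η / 2) * V * (Real.exp (-1) - Real.exp (-(1 + κ))) ≤ (S + ε) * V := by
  have hκ0 : 0 ≤ κ := by rw [hκ]; positivity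
  rw [laplace_eq f hf0 hfm hloc V hV] at hup
  set Φ : ℝ → ℝ := fun w => ∫ v in Set.Ioc 0 w, f v with hΦ
  have hΦ0 : ∀ w, 0 ≤ Φ w := fun w => integral_nonneg fun v => hf0 v
  have hΦmono : Monotone Φ := by
    intro x y hxy
    exact setIntegral_mono_set (hloc y) (Filter.Eventually.of_forall fun v => hf0 v)
      (Set.Ioc_subset_Ioc_right hxy).eventuallyLE
  have hmeas : Measurable fun u : ℝ => Real.exp (-u) * Φ (V * u) :=
    (Real.measurable_exp.comp measurable_neg).mul
      (hΦmono.measurable.comp (measurable_const.mul measurable_id))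
  have hnn : ∀ u : ℝ, 0 ≤ Real.exp (-u) * Φ (V * u) := fun u =>
    mul_nonneg (Real.exp_pos _).le (hΦ0 _)
  have hint : IntegrableOn (fun u : ℝ => Real.exp (-u) * Φ (V * u)) (Set.Ioi 0) := by
    refine ⟨hmeas.aestronglyMeasurable, ?_⟩
    rw [hasFiniteIntegral_iff_ofReal (Filter.Eventually.of_forall hnn)]
    exact lt_of_le_of_lt hup ENNReal.ofReal_lt_top
  have hle : ∫ u in Set.Ioi 0, Real.exp (-u) * Φ (V * u) ≤ (S + ε) * V := by
    have h1 := ofReal_integral_eq_lintegral_ofReal hint (Filter.Eventually.of_forall hnn)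
    have h2 : ENNReal.ofReal (∫ u in Set.Ioi 0, Real.exp (-u) * Φ (V * u)) ≤
        ENNReal.ofReal ((S + ε) * V) := by rw [h1]; exact hup
    exact (ENNReal.ofReal_le_ofReal_iff (by positivity)).mp h2
  refine le_trans ?_ hle
  obtain ⟨hi1, he1⟩ := int_mul_exp
  obtain ⟨hi0, he0⟩ := int_exp
  have hib : IntegrableOn (fun u : ℝ => (Set.Ioc 1 (1 + κ)).indicator
      (fun u => Real.exp (-u)) u) (Set.Ioi 0) := hi0.indicator measurableSet_Ioc
  have heb := int_bump 1 (1 + κ) zero_le_one (by linarith)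
  have hg : IntegrableOn (fun u : ℝ => (a * V) * (Real.exp (-u) * u) - (a * w0) * Real.exp (-u) +
      (η / 2 * V) * (Set.Ioc 1 (1 + κ)).indicator (fun u => Real.exp (-u)) u) (Set.Ioi 0) :=
    ((hi1.const_mul _).sub (hi0.const_mul _)).add (hib.const_mul _)
  have hgint : ∫ u in Set.Ioi (0:ℝ), ((a * V) * (Real.exp (-u) * u) - (a * w0) * Real.exp (-u) +
      (η / 2 * V) * (Set.Ioc 1 (1 + κ)).indicator (fun u => Real.exp (-u)) u) =
      a * V - a * w0 + (η / 2 * V) * (Real.exp (-1) - Real.exp (-(1 + κ))) := by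
    have e1 : ∫ u in Set.Ioi (0:ℝ), ((a * V) * (Real.exp (-u) * u) - (a * w0) * Real.exp (-u) +
      (η / 2 * V) * (Set.Ioc 1 (1 + κ)).indicator (fun u => Real.exp (-u)) u) =
      (∫ u in Set.Ioi (0:ℝ), ((a * V) * (Real.exp (-u) * u) - (a * w0) * Real.exp (-u))) +
      ∫ u in Set.Ioi (0:ℝ), (η / 2 * V) *
        (Set.Ioc 1 (1 + κ)).indicator (fun u => Real.exp (-u)) u :=
      integral_add (f := fun u => (a * V) * (Real.exp (-u) * u) - (a * w0) * Real.exp (-u))
        ((hi1.const_mul _).sub (hi0.const_mul _)) (hib.const_mul _)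
    have e2 : ∫ u in Set.Ioi (0:ℝ), ((a * V) * (Real.exp (-u) * u) - (a * w0) * Real.exp (-u)) =
      (∫ u in Set.Ioi (0:ℝ), (a * V) * (Real.exp (-u) * u)) -
      ∫ u in Set.Ioi (0:ℝ), (a * w0) * Real.exp (-u) :=
      integral_sub (hi1.const_mul _) (hi0.const_mul _)
    rw [e1, e2, integral_const_mul, integral_const_mul, integral_const_mul, he1, he0, heb]
    ring
  have hmono := setIntegral_mono_on hg hint measurableSet_Ioi (by
    intro u hu
    have hu0 : 0 < u := hu
    have he := Real.exp_pos (-u)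
    by_cases hu1 : u ∈ Set.Ioc 1 (1 + κ)
    · rw [Set.indicator_of_mem hu1]
      have h1 : Φ V ≤ Φ (V * u) := hΦmono (by nlinarith [hu1.1])
      have h2 : a * V * u ≤ S * V + η / 2 * V := by
        have hSk : S * κ ≤ η / 2 := by
          rw [hκ]
          rw [mul_div_assoc', div_le_iff₀ (by positivity)]
          nlinarith
        have h3 : a * V * u ≤ S * V * (1 + κ) := by
          apply mul_le_mul (mul_le_mul_of_nonneg_right haS hV.le) hu1.2 hu0.le (by positivity)
        nlinarith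
      have h4 : a * V * u - a * w0 + η / 2 * V ≤ Φ (V * u) := by
        have : 0 ≤ a * w0 := by positivity
        have hb : (S + η) * V ≤ Φ V := hbig
        nlinarith
      nlinarith [mul_le_mul_of_nonneg_left h4 he.le]
    · rw [Set.indicator_of_notMem hu1]
      have h1 := hlow (V * u) (by positivity)
      have h4 : a * (V * u - w0) ≤ Φ (V * u) := h1
      nlinarith [mul_le_mul_of_nonneg_left h4 he.le])
  rw [hgint] at hmono
  nlinarith [hmono]

theorem taub (f : ℝ → ℝ) (hf0 : ∀ v, 0 ≤ f v) (hfm : Measurable f)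
    (hloc : ∀ V : ℝ, IntegrableOn f (Set.Ioc 0 V)) (S : ℝ) (hS : 0 ≤ S)
    (hlow : ∀ ε : ℝ, 0 < ε → ∀ᶠ V : ℝ in Filter.atTop, (S - ε) * V ≤ ∫ v in Set.Ioc 0 V, f v)
    (hup : ∀ ε : ℝ, 0 < ε → ∀ᶠ V : ℝ in Filter.atTop,
      ∫⁻ v in Set.Ioi 0, ENNReal.ofReal (f v * Real.exp (-(v / V))) ≤
        ENNReal.ofReal ((S + ε) * V)) :
    Filter.Tendsto (fun V : ℝ => (∫ v in Set.Ioc 0 V, f v) / V) Filter.atTop (nhds S) := by
  rw [tendsto_order]
  constructor
  · intro b hb
    have h1 := hlow ((S - b) / 2) (by linarith)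
    filter_upwards [h1, eventually_gt_atTop 0] with V hV hV0
    rw [lt_div_iff₀ hV0]
    nlinarith
  · intro b hb
    set η : ℝ := b - S with hη
    have hη0 : 0 < η := by linarith
    set κ : ℝ := η / (2 * (S + 1)) with hκ
    have hκ0 : 0 < κ := by positivity
    set c0 : ℝ := (η / 2) * (Real.exp (-1) - Real.exp (-(1 + κ))) with hc0
    have hc0p : 0 < c0 := by
      have : Real.exp (-(1 + κ)) < Real.exp (-1) := Real.exp_lt_exp.mpr (by linarith)
      have h2 : 0 < Real.exp (-1) - Real.exp (-(1 + κ)) := by linarith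
      positivity
    have hε : 0 < c0 / 4 := by positivity
    obtain ⟨w1, hw1⟩ := Filter.eventually_atTop.mp (hlow (c0 / 4) hε)
    set w0 : ℝ := max w1 0 with hw0
    have hw00 : 0 ≤ w0 := le_max_right _ _
    set a : ℝ := max (S - c0 / 4) 0 with ha
    have ha0 : 0 ≤ a := le_max_right _ _
    have haS : a ≤ S := max_le (by linarith) hS
    have hSa : S ≤ a + c0 / 4 := by have := le_max_left (S - c0 / 4) 0; linarith
    have hlow' : ∀ w, 0 ≤ w → a * (w - w0) ≤ ∫ v in Set.Ioc 0 w, f v := by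
      intro w hw
      have hnn : 0 ≤ ∫ v in Set.Ioc 0 w, f v := integral_nonneg fun v => hf0 v
      rcases le_or_gt w0 w with h | h
      · rcases max_cases (S - c0 / 4) 0 with ⟨h1, h2⟩ | ⟨h1, h2⟩
        · have h3 := hw1 w (le_trans (le_max_left _ _) h)
          have h4 : a = S - c0 / 4 := h1
          rw [← h4] at h3
          nlinarith
        · have h4 : a = 0 := h1
          rw [h4]; simpa using hnn
      · have : a * (w - w0) ≤ 0 := mul_nonpos_of_nonneg_of_nonpos ha0 (by linarith)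
        linarith
    filter_upwards [hup (c0 / 4) hε, eventually_gt_atTop 0,
      eventually_gt_atTop (2 * S * w0 / c0)] with V hV hV0 hVbig
    rw [div_lt_iff₀ hV0]
    by_contra hcon
    push Not at hcon
    have hcon' : (S + η) * V ≤ ∫ v in Set.Ioc 0 V, f v := by
      have : S + η = b := by rw [hη]; ring
      rw [this]; exact hcon
    have := upper_step f hf0 hfm hloc S hS a w0 (c0 / 4) η κ V ha0 haS hw00 hη0 hκ hV0
      hlow' hV hε hcon'
    have h5 : η / 2 * V * (Real.exp (-1) - Real.exp (-(1 + κ))) = c0 * V := by rw [hc0]; ring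
    rw [h5] at this
    rw [div_lt_iff₀ hc0p] at hVbig
    have h6 : a * w0 ≤ S * w0 := mul_le_mul_of_nonneg_right haS hw00
    nlinarith

end Pool.Agent.W56.WM
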